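import Mathlib

set_option autoImplicit false

namespace Pool.Agent.Results.MP_ba12ad_co.Circ11

/-- A loopless digraph (arc relation `D`) with no directed 2-cycle and no directed triangle. -/
def CFree {V : Type} (D : V → V → Prop) : Prop :=
  (∀ u, ¬ D u u) ∧ (∀ u v, D u v → ¬ D v u) ∧ ∀ u v w, D u v → D v w → ¬ D w u

/-- Maximal: adding any missing arc `u → v` (`u ≠ v`) destroys `CFree`. -/
def MaximalCFree {V : Type} (D : V → V → Prop) : Prop :=
  CFree D ∧ ∀ u v, u ≠ v → ¬ D u v → ¬ CFree (fun x y => D x y ∨ (x = u ∧ y = v))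

/-- Homogeneous set. -/
def Homogeneous {V : Type} [Fintype V] (D : V → V → Prop) (X : Finset V) : Prop :=
  2 ≤ X.card ∧ X.card < Fintype.card V ∧
    ∀ w, w ∉ X → (∀ x ∈ X, D w x) ∨ (∀ x ∈ X, D x w) ∨ (∀ x ∈ X, ¬ D w x ∧ ¬ D x w)

/-- The circular interval digraph on `ZMod (3k+1)`: arcs `i → i + j` for `j = 1, …, k`. -/
def Circ (k : ℕ) (a b : ZMod (3 * k + 1)) : Prop :=
  ∃ j : ℕ, 1 ≤ j ∧ j ≤ k ∧ b = a + (j : ZMod (3 * k + 1))

/-- Cayley digraph of `ZMod 11` with connection set `{1, 2, 4}`. -/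
def D0 (u v : Fin 11) : Prop := v = u + 1 ∨ v = u + 2 ∨ v = u + 4

instance : DecidableRel D0 := fun u v => inferInstanceAs (Decidable (v = u + 1 ∨ v = u + 2 ∨ v = u + 4))

theorem free : CFree D0 := ⟨by decide +kernel, by decide +kernel, by decide +kernel⟩

theorem maxi : MaximalCFree D0 := by
  refine ⟨free, fun u v huv hn h => ?_⟩
  have key : ∀ u v : Fin 11, u ≠ v → ¬ D0 u v → D0 v u ∨ ∃ w, D0 v w ∧ D0 w u := by decide +kernel
  rcases key u v huv hn with h1 | ⟨w, h1, h2⟩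
  · exact h.2.1 u v (Or.inr ⟨rfl, rfl⟩) (Or.inl h1)
  · exact h.2.2 u v w (Or.inr ⟨rfl, rfl⟩) (Or.inl h1) (Or.inl h2)

/-- `w` distinguishes `x` and `y` -/
def sep (w x y : Fin 11) : Prop :=
  ¬ ((D0 w x ∧ D0 w y) ∨ (D0 x w ∧ D0 y w) ∨ ((¬ D0 w x ∧ ¬ D0 x w) ∧ (¬ D0 w y ∧ ¬ D0 y w)))

instance (w x y : Fin 11) : Decidable (sep w x y) := by unfold sep; infer_instance

set_option synthInstance.maxSize 4000 in
theorem gen : ∀ x y : Fin 11, x ≠ y → ∀ w, w = x ∨ w = y ∨ sep w x y ∨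
    ∃ z, sep z x y ∧ (sep w x z ∨ sep w y z) := by decide +kernel

theorem nohom (X : Finset (Fin 11)) : ¬ Homogeneous D0 X := by
  rintro ⟨h1, h2, h3⟩
  have hs : ∀ w x y, x ∈ X → y ∈ X → sep w x y → w ∈ X := by
    intro w x y hx hy hw
    by_contra hc
    apply hw
    rcases h3 w hc with h | h | h
    · exact Or.inl ⟨h x hx, h y hy⟩
    · exact Or.inr (Or.inl ⟨h x hx, h y hy⟩)
    · exact Or.inr (Or.inr ⟨h x hx, h y hy⟩)
  obtain ⟨x, hx, y, hy, hxy⟩ := Finset.one_lt_card.1 (show 1 < X.card by omega)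
  have : X = Finset.univ := by
    rw [Finset.eq_univ_iff_forall]
    intro w
    rcases gen x y hxy w with h | h | h | ⟨z, hz, h | h⟩
    · exact h ▸ hx
    · exact h ▸ hy
    · exact hs w x y hx hy h
    · exact hs w x z hx (hs z x y hx hy hz) h
    · exact hs w y z hy (hs z x y hx hy hz) h
  rw [this] at h2
  simp at h2

theorem result :
    ∃ D : Fin 11 → Fin 11 → Prop, MaximalCFree D ∧ (∀ X, ¬ Homogeneous D X) ∧
      (∀ v, (4 * 11 : ℝ) / 15 < ({w | D v w}.ncard : ℝ)) ∧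
      ∀ k : ℕ, 1 ≤ k → ¬ ∃ e : Fin 11 ≃ ZMod (3 * k + 1), ∀ u v, D u v ↔ Circ k (e u) (e v) := by
  refine ⟨D0, maxi, nohom, fun v => ?_, ?_⟩
  · have h1 : ∀ v, (Finset.univ.filter fun w => D0 v w).card = 3 := by decide +kernel
    have e1 : {w | D0 v w} = ↑(Finset.univ.filter fun w => D0 v w) := by ext; simp
    rw [e1, Set.ncard_coe_finset, h1]
    norm_num
  · rintro k - ⟨e, -⟩
    have := Fintype.card_congr e
    rw [ZMod.card, Fintype.card_fin] at this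
    omega

end Pool.Agent.Results.MP_ba12ad_co.Circ11
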